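import Pool.Agent.X79.EC.Stm

/-!
Part DEG of project EC: counting edges by the degrees of the ends.
-/

set_option autoImplicit false

namespace Pool.Agent.X274.EC

open Finset Pool.Agent.X79.EC

theorem t_DEG : S_DEG := by
  intro V _ _ G _ h2
  classical
  have h1 : ∑ v ∈ univ.filter (fun v : V => G.degree v = 2), G.degree v = 2 * nd G 2 := by
    rw [Finset.sum_congr rfl (g := fun _ => 2) (fun v hv => (Finset.mem_filter.1 hv).2),
      Finset.sum_const, smul_eq_mul, mul_comm]
    rfl
  have h3 : ∀ v, G.degree v = (G.edgeFinset.filter (fun e => v ∈ e)).card := by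
    intro v
    rw [← G.card_incidenceFinset_eq_degree, G.incidenceFinset_eq_filter]
  have h4 : ∑ v ∈ univ.filter (fun v : V => G.degree v = 2), G.degree v =
      ∑ e ∈ G.edgeFinset, ((univ.filter (fun v : V => G.degree v = 2)).filter
        (fun v => v ∈ e)).card := by
    rw [Finset.sum_congr rfl (fun v _ => h3 v)]
    exact Finset.sum_card_bipartiteAbove_eq_sum_card_bipartiteBelow (fun (v : V) (e : Sym2 V) => v ∈ e)
  have h5 : G.edgeFinset.card + m22 G = ∑ e ∈ G.edgeFinset,
      (1 + if ∀ v ∈ e, G.degree v = 2 then 1 else 0) := by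
    rw [Finset.sum_add_distrib, Finset.card_eq_sum_ones, m22, Finset.card_filter]
  have h6 : ∑ e ∈ G.edgeFinset, ((univ.filter (fun v : V => G.degree v = 2)).filter
        (fun v => v ∈ e)).card + mhh G = ∑ e ∈ G.edgeFinset,
      (((univ.filter (fun v : V => G.degree v = 2)).filter (fun v => v ∈ e)).card +
        if ∀ v ∈ e, 3 ≤ G.degree v then 1 else 0) := by
    rw [Finset.sum_add_distrib, mhh, Finset.card_filter (fun e : Sym2 V => ∀ v ∈ e, 3 ≤ G.degree v)]
  rw [← h1, h4, h5, h6]
  refine Finset.sum_congr rfl fun e he => ?_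
  induction e with
  | _ a b =>
    have hab : a ≠ b := (G.mem_edgeFinset.1 he : G.Adj a b).ne
    have ha := h2 a
    have hb := h2 b
    have h7 : ((univ.filter (fun v : V => G.degree v = 2)).filter (fun v => v ∈ s(a, b))) =
        ({a, b} : Finset V).filter (fun v => G.degree v = 2) := by
      ext v
      simp only [Finset.mem_filter, Finset.mem_univ, true_and, Sym2.mem_iff, Finset.mem_insert,
        Finset.mem_singleton]
      tauto
    rw [h7, Finset.filter_insert, Finset.filter_singleton]
    simp only [Sym2.mem_iff, forall_eq_or_imp, forall_eq]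
    by_cases h8 : G.degree a = 2 <;> by_cases h9 : G.degree b = 2
    · simp [h8, h9, hab]
    · have : 3 ≤ G.degree b := by omega
      simp [h8, h9]
    · have : 3 ≤ G.degree a := by omega
      simp [h8, h9]
    · have h10 : 3 ≤ G.degree b := by omega
      have h11 : 3 ≤ G.degree a := by omega
      simp [h8, h9, h10, h11]

end Pool.Agent.X274.EC
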